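import Pool.Agent.W223.RA.Stms
import Pool.Agent.W75.PL.DIV

/-! Project RC: radicals that split into four factors of size at least `X ^ ε`. -/

set_option autoImplicit false

namespace Pool.Agent.W786.RC

open Finset Pool.Agent.W223.RA

noncomputable section

theorem prod_facts {a b : ℕ} (h : Trip a b) :
    N3 a b ≠ 0 ∧ Real.log (N3 a b : ℝ) =
      ∑ p ∈ (N3 a b).primeFactors, ((N3 a b).factorization p : ℝ) * Real.log p := by
  have hne : N3 a b ≠ 0 := by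
    unfold N3
    have := h.1
    have := h.2.1
    have ha : a ≠ 0 := by omega
    have hb : b ≠ 0 := by omega
    have hc : a + b ≠ 0 := by omega
    exact mul_ne_zero (mul_ne_zero ha hb) hc
  refine ⟨hne, ?_⟩
  conv_lhs => rw [← Nat.prod_factorization_pow_eq_self hne]
  rw [Finsupp.prod, Nat.support_factorization, Nat.cast_prod, Real.log_prod]
  · refine Finset.sum_congr rfl fun p _ => ?_
    rw [Nat.cast_pow, Real.log_pow]
  · intro p hp
    have : p.Prime := Nat.prime_of_mem_primeFactors hp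
    have := this.pos
    positivity

/-- The set of the gap principle. -/
def GS (S : Finset ℕ) (ℓ : ℝ) : Set (ℕ × ℕ) :=
  {x : ℕ × ℕ | Trip x.1 x.2 ∧ Scale ℓ x.1 x.2 ∧ Light S x.1 x.2}

/-- The radical of a triple. -/
def g (x : ℕ × ℕ) : ℕ := ∏ p ∈ (N3 x.1 x.2).primeFactors, p

theorem squarefree_g (x : ℕ × ℕ) : Squarefree (g x) := by
  unfold g
  refine Finset.squarefree_prod_of_pairwise_isCoprime (fun p hp q hq hpq ↦ ?_)
    fun p hp ↦ (Nat.prime_of_mem_primeFactors hp).squarefree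
  simp only [Function.onFun, ← Nat.coprime_iff_isRelPrime]
  exact (Nat.coprime_primes (Nat.prime_of_mem_primeFactors hp)
    (Nat.prime_of_mem_primeFactors hq)).mpr hpq

theorem sum_pf {m n : ℕ} (h : Nat.Coprime m n) (f : ℕ → ℝ) :
    ∑ p ∈ (m * n).primeFactors, f p = ∑ p ∈ m.primeFactors, f p + ∑ p ∈ n.primeFactors, f p := by
  rw [h.primeFactors_mul, Finset.sum_union h.disjoint_primeFactors]

/-- One of four coprime factors carries at most a quarter. -/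
theorem pick {R s₁ s₂ s₃ s₄ : ℕ} (hR : Squarefree R) (hs : R = s₁ * s₂ * s₃ * s₄)
    (f : ℕ → ℝ) (L : ℝ) (hf : ∑ p ∈ R.primeFactors, f p ≤ 3 * L) (hL : 0 < L) :
    ∃ s, (s = s₁ ∨ s = s₂ ∨ s = s₃ ∨ s = s₄) ∧ s ∣ R ∧
      ∑ p ∈ s.primeFactors, f p ≤ 7 / 8 * L := by
  subst hs
  obtain ⟨h4, hR3, -⟩ := Nat.squarefree_mul_iff.1 hR
  obtain ⟨h3, hR2, -⟩ := Nat.squarefree_mul_iff.1 hR3
  obtain ⟨h2, -, -⟩ := Nat.squarefree_mul_iff.1 hR2
  rw [sum_pf h4, sum_pf h3, sum_pf h2] at hf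
  by_contra hcon
  push Not at hcon
  have e1 := hcon s₁ (Or.inl rfl) ⟨s₂ * s₃ * s₄, by ring⟩
  have e2 := hcon s₂ (Or.inr (Or.inl rfl)) ⟨s₁ * s₃ * s₄, by ring⟩
  have e3 := hcon s₃ (Or.inr (Or.inr (Or.inl rfl))) ⟨s₁ * s₂ * s₄, by ring⟩
  have e4 := hcon s₄ (Or.inr (Or.inr (Or.inr rfl))) ⟨s₁ * s₂ * s₃, by ring⟩
  linarith

/-- The scale of a large height. -/
theorem scale {L Y : ℝ} (hL : 12 ≤ L) (hY : Real.log L ≤ Y) :
    ∃ i : ℕ, (i : ℝ) ≤ 33 * Y ∧ 12 * (33 / 32 : ℝ) ^ i ≤ L ∧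
      L ≤ 33 / 32 * (12 * (33 / 32 : ℝ) ^ i) := by
  obtain ⟨i, hi1, hi2⟩ := exists_nat_pow_near (x := L / 12) (y := (33 / 32 : ℝ))
    ((one_le_div (by norm_num)).2 hL) (by norm_num)
  refine ⟨i, ?_, ?_, ?_⟩
  · have hiX : (33 / 32 : ℝ) ^ i ≤ L := by
      have : L / 12 ≤ L := by linarith
      linarith
    have h1 : Real.log ((33 / 32 : ℝ) ^ i) ≤ Real.log L := Real.log_le_log (by positivity) hiX
    rw [Real.log_pow] at h1
    have h2 : 1 - (33 / 32 : ℝ)⁻¹ ≤ Real.log (33 / 32) :=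
      Real.one_sub_inv_le_log_of_pos (by norm_num)
    have h3 : (1 : ℝ) / 33 ≤ Real.log (33 / 32) := by
      refine le_trans ?_ h2; norm_num
    have h4 : (i : ℝ) * (1 / 33) ≤ (i : ℝ) * Real.log (33 / 32) :=
      mul_le_mul_of_nonneg_left h3 (Nat.cast_nonneg i)
    linarith
  · rw [le_div_iff₀ (by norm_num)] at hi1
    linarith
  · rw [div_lt_iff₀ (by norm_num), pow_succ] at hi2
    linarith

theorem cover (ε δ X : ℝ) (hX : 1 ≤ X) {a b R : ℕ} (htr : Trip a b) (hprod : g (a, b) = R)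
    (hRX : (R : ℝ) ≤ X) (hL12 : 12 ≤ Real.log ((a + b : ℕ) : ℝ))
    (hLX : Real.log (Real.log ((a + b : ℕ) : ℝ)) ≤ X ^ δ)
    (hs : ∃ s₁ s₂ s₃ s₄ : ℕ, R = s₁ * s₂ * s₃ * s₄ ∧ X ^ ε ≤ (s₁ : ℝ) ∧ X ^ ε ≤ (s₂ : ℝ) ∧
      X ^ ε ≤ (s₃ : ℝ) ∧ X ^ ε ≤ (s₄ : ℝ)) :
    ∃ m ∈ Finset.Icc 1 ⌊X ^ (1 - ε)⌋₊, ∃ i ∈ Finset.range (⌊33 * X ^ δ⌋₊ + 1),
        R ∈ g '' GS m.primeFactors (12 * (33 / 32) ^ i) := by
  obtain ⟨s₁, s₂, s₃, s₄, hRs, k1, k2, k3, k4⟩ := hs
  obtain ⟨hne, hlog⟩ := prod_facts htr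
  set P := (N3 a b).primeFactors with hP
  set L := Real.log ((a + b : ℕ) : ℝ) with hLdef
  have hRsq : Squarefree R := hprod ▸ squarefree_g (a, b)
  have hPp : ∀ p ∈ P, p.Prime := fun p hp => Nat.prime_of_mem_primeFactors hp
  have hRpf : R.primeFactors = P := by rw [← hprod]; exact Nat.primeFactors_prod hPp
  have hXpos : 0 < X := by linarith
  have hN3 : Real.log (N3 a b : ℝ) ≤ 3 * L := by
    have ha : 0 < a := htr.1
    have hb : 0 < b := lt_of_lt_of_le ha htr.2.1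
    have h1 : (N3 a b : ℝ) ≤ ((a + b : ℕ) : ℝ) ^ 3 := by
      unfold N3
      push_cast
      have ha' : (0 : ℝ) < a := by exact_mod_cast ha
      have hb' : (0 : ℝ) < b := by exact_mod_cast hb
      have : (a : ℝ) * b ≤ (a + b) * (a + b) :=
        mul_le_mul (by linarith) (by linarith) hb'.le (by positivity)
      calc (a : ℝ) * b * (a + b) ≤ ((a + b) * (a + b)) * (a + b) :=
            mul_le_mul_of_nonneg_right this (by positivity)
        _ = (a + b) ^ 3 := by ring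
    have h2 : 0 < (N3 a b : ℝ) := by exact_mod_cast Nat.pos_of_ne_zero hne
    have h3 := Real.log_le_log h2 h1
    rw [Real.log_pow] at h3
    have h4 : ((3 : ℕ) : ℝ) = 3 := by norm_num
    rw [h4] at h3
    exact h3
  have hLpos : 0 < L := by linarith
  obtain ⟨s, hsor, hsR, hsum⟩ := pick hRsq hRs
    (fun p => ((N3 a b).factorization p : ℝ) * Real.log p) L (by rw [hRpf, ← hlog]; exact hN3)
    hLpos
  have hsX : X ^ ε ≤ (s : ℝ) := by
    rcases hsor with h | h | h | h <;> rw [h] <;> assumption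
  have hssq : Squarefree s := hRsq.squarefree_of_dvd hsR
  have hsub : s.primeFactors ⊆ P := by
    rw [← hRpf]; exact Nat.primeFactors_mono hsR hRsq.ne_zero
  have hSp : ∀ p ∈ P \ s.primeFactors, p.Prime := fun p hp => hPp p (Finset.sdiff_subset hp)
  have hmpf : (∏ p ∈ P \ s.primeFactors, p).primeFactors = P \ s.primeFactors :=
    Nat.primeFactors_prod hSp
  have hms : (∏ p ∈ P \ s.primeFactors, p) * s = R := by
    have h1 := Finset.prod_sdiff (f := fun p : ℕ => p) hsub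
    rw [Nat.prod_primeFactors_of_squarefree hssq] at h1
    rw [h1]; exact hprod
  have hmpos : 0 < ∏ p ∈ P \ s.primeFactors, p := Finset.prod_pos fun p hp => (hSp p hp).pos
  have hmX : ((∏ p ∈ P \ s.primeFactors, p : ℕ) : ℝ) ≤ X ^ (1 - ε) := by
    have h0 : 0 < X ^ ε := Real.rpow_pos_of_pos hXpos _
    have h1 : ((∏ p ∈ P \ s.primeFactors, p : ℕ) : ℝ) * X ^ ε ≤ X := by
      calc ((∏ p ∈ P \ s.primeFactors, p : ℕ) : ℝ) * X ^ ε
          ≤ ((∏ p ∈ P \ s.primeFactors, p : ℕ) : ℝ) * s :=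
            mul_le_mul_of_nonneg_left hsX (Nat.cast_nonneg _)
        _ = (R : ℝ) := by rw [← hms]; push_cast; ring
        _ ≤ X := hRX
    rw [Real.rpow_sub hXpos, Real.rpow_one, le_div_iff₀ h0]
    exact h1
  obtain ⟨i, hi0, hi1, hi2⟩ := scale hL12 hLX
  refine ⟨∏ p ∈ P \ s.primeFactors, p, ?_, i, ?_, ?_⟩
  · rw [Finset.mem_Icc]
    exact ⟨hmpos, Nat.le_floor hmX⟩
  · rw [Finset.mem_range]
    exact Nat.lt_succ_of_le (Nat.le_floor hi0)
  · refine ⟨(a, b), ⟨htr, ⟨hi1, hi2⟩, ?_⟩, hprod⟩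
    rw [hmpf]
    show Real.log (N3 a b : ℝ) - 7 / 8 * L ≤
      ∑ q ∈ P \ s.primeFactors, ((N3 a b).factorization q : ℝ) * Real.log q
    have h1 : ∑ q ∈ P \ s.primeFactors, ((N3 a b).factorization q : ℝ) * Real.log q +
        ∑ q ∈ s.primeFactors, ((N3 a b).factorization q : ℝ) * Real.log q =
        ∑ q ∈ P, ((N3 a b).factorization q : ℝ) * Real.log q := Finset.sum_sdiff hsub
    rw [hlog]
    linarith

theorem two_pow_omega {m : ℕ} (hm : m ≠ 0) : 2 ^ m.primeFactors.card ≤ m.divisors.card := by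
  rw [Nat.card_divisors hm, ← Finset.prod_const]
  refine Finset.prod_le_prod' fun p hp => ?_
  have := (Nat.prime_of_mem_primeFactors hp).factorization_pos_of_dvd hm
    (Nat.dvd_of_mem_primeFactors hp)
  omega

/-- The set of the theorem. -/
def RS (ε δ X : ℝ) : Set ℕ :=
  {R : ℕ | (R : ℝ) ≤ X ∧ (∃ s₁ s₂ s₃ s₄ : ℕ, R = s₁ * s₂ * s₃ * s₄ ∧ X ^ ε ≤ (s₁ : ℝ) ∧
      X ^ ε ≤ (s₂ : ℝ) ∧ X ^ ε ≤ (s₃ : ℝ) ∧ X ^ ε ≤ (s₄ : ℝ)) ∧
    ∃ a b c : ℕ, 0 < a ∧ 0 < b ∧ Nat.Coprime a b ∧ a + b = c ∧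
      ∏ p ∈ (a * b * c).primeFactors, p = R ∧ Real.log (Real.log c) ≤ X ^ δ}

/-- The small heights. -/
def F0 : Finset ℕ :=
  (Finset.range (⌊Real.exp 12⌋₊ + 1) ×ˢ Finset.range (⌊Real.exp 12⌋₊ + 1)).image g

theorem RS_sub (ε δ X : ℝ) (hX : 1 ≤ X) :
    RS ε δ X ⊆ (F0 : Set ℕ) ∪ ⋃ m ∈ Finset.Icc 1 ⌊X ^ (1 - ε)⌋₊,
      ⋃ i ∈ Finset.range (⌊33 * X ^ δ⌋₊ + 1), g '' GS m.primeFactors (12 * (33 / 32) ^ i) := by
  intro R hR
  obtain ⟨hRX, hs, a, b, c, ha, hb, hab, rfl, hprod, hlog⟩ := hR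
  -- ordered version
  have key : ∀ a b : ℕ, Trip a b → g (a, b) = R →
      Real.log (Real.log ((a + b : ℕ) : ℝ)) ≤ X ^ δ →
      R ∈ (F0 : Set ℕ) ∪ ⋃ m ∈ Finset.Icc 1 ⌊X ^ (1 - ε)⌋₊,
      ⋃ i ∈ Finset.range (⌊33 * X ^ δ⌋₊ + 1), g '' GS m.primeFactors (12 * (33 / 32) ^ i) := by
    intro a b htr hg hl
    by_cases h12 : 12 ≤ Real.log ((a + b : ℕ) : ℝ)
    · right
      obtain ⟨m, hm, i, hi, hRi⟩ := cover ε δ X hX htr hg hRX h12 hl hs
      simp only [Set.mem_iUnion]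
      exact ⟨m, hm, i, hi, hRi⟩
    · left
      push Not at h12
      have hpos : (0 : ℝ) < ((a + b : ℕ) : ℝ) := by
        have := htr.1
        exact_mod_cast (by omega : 0 < a + b)
      have h1 : ((a + b : ℕ) : ℝ) < Real.exp 12 := by
        rwa [Real.log_lt_iff_lt_exp hpos] at h12
      have h2 : a + b ≤ ⌊Real.exp 12⌋₊ := Nat.le_floor h1.le
      unfold F0
      rw [Finset.mem_coe, Finset.mem_image]
      refine ⟨(a, b), ?_, hg⟩
      rw [Finset.mem_product, Finset.mem_range, Finset.mem_range]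
      constructor <;> simp only <;> omega
  rcases le_total a b with hle | hle
  · exact key a b ⟨ha, hle, hab⟩ hprod hlog
  · refine key b a ⟨hb, hle, hab.symm⟩ ?_ ?_
    · rw [← hprod]
      unfold g N3
      simp only
      rw [mul_comm b a, add_comm b a]
    · rw [add_comm b a]; exact hlog

theorem tRC (hGAP : Pool.Agent.W223.RA.StmtGAP) : ∀ ε δ η : ℝ, 0 < ε → 0 < δ → 0 < η →
    ∃ C : ℝ, ∀ X : ℝ, 1 ≤ X →
  (({R : ℕ | (R : ℝ) ≤ X ∧ (∃ s₁ s₂ s₃ s₄ : ℕ, R = s₁ * s₂ * s₃ * s₄ ∧ X ^ ε ≤ (s₁ : ℝ) ∧ X ^ ε ≤ (s₂ : ℝ) ∧ X ^ ε ≤ (s₃ : ℝ) ∧ X ^ ε ≤ (s₄ : ℝ)) ∧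
    ∃ a b c : ℕ, 0 < a ∧ 0 < b ∧ Nat.Coprime a b ∧ a + b = c ∧ ∏ p ∈ (a * b * c).primeFactors, p = R ∧ Real.log (Real.log c) ≤ X ^ δ}.ncard : ℕ) : ℝ) ≤ C * X ^ (1 - ε + δ + η) := by
  intro ε δ η hε hδ hη
  by_cases hε4 : 1 / 4 < ε
  · refine ⟨2, fun X hX => ?_⟩
    have hXpos : 0 < X := by linarith
    change ((RS ε δ X).ncard : ℝ) ≤ _
    rcases hX.eq_or_lt with hX1 | hX1
    · have hsub : RS ε δ X ⊆ ((Finset.range 2 : Finset ℕ) : Set ℕ) := by
        intro R hR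
        have h1 : R ≤ 1 := by
          have := hR.1
          rw [← hX1] at this
          exact_mod_cast this
        rw [Finset.mem_coe, Finset.mem_range]
        omega
      have h := Set.ncard_le_ncard hsub (Finset.finite_toSet _)
      rw [Set.ncard_coe_finset, Finset.card_range] at h
      have e : X ^ (1 - ε + δ + η) = 1 := by rw [← hX1]; exact Real.one_rpow _
      rw [e, mul_one]
      exact_mod_cast h
    · have hempty : RS ε δ X = ∅ := by
        rw [Set.eq_empty_iff_forall_notMem]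
        rintro R ⟨hRX, ⟨s₁, s₂, s₃, s₄, hRs, k1, k2, k3, k4⟩, -⟩
        have h0 : 0 < X ^ ε := Real.rpow_pos_of_pos hXpos _
        have h1 : X ^ ε * X ^ ε * X ^ ε * X ^ ε ≤ (R : ℝ) := by
          rw [hRs]; push_cast
          gcongr
        have h2 : X < X ^ ε * X ^ ε * X ^ ε * X ^ ε := by
          rw [← Real.rpow_add hXpos, ← Real.rpow_add hXpos, ← Real.rpow_add hXpos]
          calc X = X ^ (1 : ℝ) := (Real.rpow_one X).symm
            _ < X ^ (ε + ε + ε + ε) := Real.rpow_lt_rpow_of_exponent_lt hX1 (by linarith)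
        linarith
      rw [hempty, Set.ncard_empty]
      have : 0 < X ^ (1 - ε + δ + η) := Real.rpow_pos_of_pos hXpos _
      simp only [Nat.cast_zero]
      positivity
  · push Not at hε4
    obtain ⟨C1, hC1, hdiv⟩ := Pool.Agent.W75.PL.DIV.t (η / 105) (by positivity)
    refine ⟨(F0.card : ℝ) + 34 * ((2 : ℝ) ^ 105 * C1 ^ 105), fun X hX => ?_⟩
    have hXpos : 0 < X := by linarith
    change ((RS ε δ X).ncard : ℝ) ≤ _
    set U : Set ℕ := ⋃ m ∈ Finset.Icc 1 ⌊X ^ (1 - ε)⌋₊,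
      ⋃ i ∈ Finset.range (⌊33 * X ^ δ⌋₊ + 1), g '' GS m.primeFactors (12 * (33 / 32) ^ i) with hU
    set B : ℕ := ⌊(2 : ℝ) ^ 105 * C1 ^ 105 * X ^ η⌋₊ with hB
    have hBle : (B : ℝ) ≤ (2 : ℝ) ^ 105 * C1 ^ 105 * X ^ η := Nat.floor_le (by positivity)
    have hG : ∀ m ∈ Finset.Icc 1 ⌊X ^ (1 - ε)⌋₊, ∀ i : ℕ,
        (GS m.primeFactors (12 * (33 / 32) ^ i)).Finite ∧
        (GS m.primeFactors (12 * (33 / 32) ^ i)).ncard ≤ B := by
      intro m hm i
      rw [Finset.mem_Icc] at hm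
      have h12 : (12 : ℝ) ≤ 12 * (33 / 32) ^ i := by
        have : (1 : ℝ) ≤ (33 / 32) ^ i := one_le_pow₀ (by norm_num)
        linarith
      obtain ⟨h1, h2⟩ := hGAP m.primeFactors _
        (fun q hq => Nat.prime_of_mem_primeFactors hq) h12
      refine ⟨h1, h2.trans ?_⟩
      refine Nat.le_floor ?_
      have hm0 : m ≠ 0 := by omega
      have e1 : ((2 : ℝ) ^ m.primeFactors.card) ≤ C1 * (m : ℝ) ^ (η / 105) := by
        refine le_trans ?_ (hdiv m hm.1)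
        exact_mod_cast two_pow_omega hm0
      have hm1 : (1 : ℝ) ≤ m := by exact_mod_cast hm.1
      have hmX : (m : ℝ) ≤ X := by
        have h3 : (m : ℝ) ≤ X ^ (1 - ε) :=
          (Nat.cast_le.2 hm.2).trans (Nat.floor_le (Real.rpow_nonneg hXpos.le _))
        refine h3.trans ?_
        calc X ^ (1 - ε) ≤ X ^ (1 : ℝ) :=
              Real.rpow_le_rpow_of_exponent_le hX (by linarith)
          _ = X := Real.rpow_one X
      have e2 : C1 * (m : ℝ) ^ (η / 105) ≤ C1 * X ^ (η / 105) := by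
        refine mul_le_mul_of_nonneg_left ?_ (by linarith)
        exact Real.rpow_le_rpow (by linarith) hmX (by positivity)
      have e3 : ((2 : ℝ) ^ m.primeFactors.card) ^ 105 ≤ (C1 * X ^ (η / 105)) ^ 105 :=
        pow_le_pow_left₀ (by positivity) (e1.trans e2) 105
      have e4 : (X ^ (η / 105)) ^ 105 = X ^ η := by
        rw [← Real.rpow_natCast, ← Real.rpow_mul hXpos.le]
        congr 1
        push_cast
        ring
      rw [mul_pow, e4] at e3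
      push_cast
      have e5 : (2 : ℝ) ^ (105 * (m.primeFactors.card + 1)) =
          2 ^ 105 * ((2 : ℝ) ^ m.primeFactors.card) ^ 105 := by
        rw [mul_add, pow_add, mul_one, mul_comm 105 m.primeFactors.card, pow_mul, mul_comm]
      rw [e5, mul_assoc]
      exact mul_le_mul_of_nonneg_left e3 (by positivity)
    clear_value B
    have hUfin : U.Finite := by
      rw [hU]
      refine Set.Finite.biUnion (Finset.finite_toSet _) fun m hm => ?_
      refine Set.Finite.biUnion (Finset.finite_toSet _) fun i _ => ?_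
      exact ((hG m hm i).1).image g
    have hUcard : U.ncard ≤ ⌊X ^ (1 - ε)⌋₊ * ((⌊33 * X ^ δ⌋₊ + 1) * B) := by
      rw [hU]
      refine (Finset.set_ncard_biUnion_le _ _).trans ?_
      refine (Finset.sum_le_card_nsmul _ _ ((⌊33 * X ^ δ⌋₊ + 1) * B) fun m hm => ?_).trans
        (le_of_eq ?_)
      · refine (Finset.set_ncard_biUnion_le _ _).trans ?_
        refine (Finset.sum_le_card_nsmul _ _ B fun i _ => ?_).trans
          (le_of_eq (by rw [Finset.card_range, smul_eq_mul]))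
        exact (Set.ncard_image_le (hG m hm i).1).trans (hG m hm i).2
      · rw [smul_eq_mul, Nat.card_Icc]; rfl
    have hδ1 : 1 ≤ X ^ δ := Real.one_le_rpow hX hδ.le
    have hfl : ((⌊33 * X ^ δ⌋₊ + 1 : ℕ) : ℝ) ≤ 34 * X ^ δ := by
      push_cast
      have : (⌊33 * X ^ δ⌋₊ : ℝ) ≤ 33 * X ^ δ := Nat.floor_le (by positivity)
      linarith
    have hfl2 : ((⌊X ^ (1 - ε)⌋₊ : ℕ) : ℝ) ≤ X ^ (1 - ε) :=
      Nat.floor_le (Real.rpow_nonneg hXpos.le _)
    have hsub := RS_sub ε δ X hX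
    rw [← hU] at hsub
    have hfin : ((F0 : Set ℕ) ∪ U).Finite := (Finset.finite_toSet _).union hUfin
    have h1 : (RS ε δ X).ncard ≤ F0.card + U.ncard := by
      refine (Set.ncard_le_ncard hsub hfin).trans ?_
      refine (Set.ncard_union_le _ _).trans ?_
      rw [Set.ncard_coe_finset]
    have hexp : 1 ≤ X ^ (1 - ε + δ + η) := Real.one_le_rpow hX (by linarith)
    calc ((RS ε δ X).ncard : ℝ) ≤ (F0.card : ℝ) + (U.ncard : ℝ) := by exact_mod_cast h1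
      _ ≤ (F0.card : ℝ) * X ^ (1 - ε + δ + η) +
          34 * ((2 : ℝ) ^ 105 * C1 ^ 105) * X ^ (1 - ε + δ + η) := by
          refine add_le_add ?_ ?_
          · exact le_mul_of_one_le_right (Nat.cast_nonneg _) hexp
          · calc (U.ncard : ℝ) ≤ ((⌊X ^ (1 - ε)⌋₊ * ((⌊33 * X ^ δ⌋₊ + 1) * B) : ℕ) : ℝ) := by
                  exact_mod_cast hUcard
              _ = (⌊X ^ (1 - ε)⌋₊ : ℝ) * (((⌊33 * X ^ δ⌋₊ + 1 : ℕ) : ℝ) * (B : ℝ)) := by
                  rw [Nat.cast_mul, Nat.cast_mul]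
              _ ≤ X ^ (1 - ε) * ((34 * X ^ δ) * ((2 : ℝ) ^ 105 * C1 ^ 105 * X ^ η)) := by
                  refine mul_le_mul hfl2 ?_ (by positivity) (Real.rpow_nonneg hXpos.le _)
                  exact mul_le_mul hfl hBle (Nat.cast_nonneg _) (by positivity)
              _ = 34 * ((2 : ℝ) ^ 105 * C1 ^ 105) * (X ^ (1 - ε) * X ^ δ * X ^ η) := by ring
              _ = 34 * ((2 : ℝ) ^ 105 * C1 ^ 105) * X ^ (1 - ε + δ + η) := by
                  rw [← Real.rpow_add hXpos, ← Real.rpow_add hXpos]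
      _ = ((F0.card : ℝ) + 34 * ((2 : ℝ) ^ 105 * C1 ^ 105)) * X ^ (1 - ε + δ + η) := by ring

end

end Pool.Agent.W786.RC
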